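import Pool.Agent.H680R3.ZP.Stmts

/-!
Strong approximation outside a nonempty set of places, for functions and for Witt vectors.
-/

set_option autoImplicit false

open FF Pool.Agent.H639R3

namespace Pool.Agent.H825R3.ZP

open H680ZP

section fields

variable {k K : Type} [Field k] [Finite k] [Field K] [Algebra k K] [IsFF k K]

theorem mem_LLp {D : Place k K →₀ ℤ} {f : K} :
    f ∈ LLp D ↔ f = 0 ∨ ∀ P : Place k K, - D P ≤ P.ord f := Iff.rfl

theorem reg_tj {x : Place k K} {t f : K} {j : ℕ} (ht : x.ord t = 1)
    (hf : f = 0 ∨ -(j : ℤ) ≤ x.ord f) : x.Reg (t ^ j * f) := by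
  by_cases hf0 : f = 0
  · left; rw [hf0, mul_zero]
  by_cases ht0 : t ^ j = 0
  · left; rw [ht0, zero_mul]
  right
  rw [x.ord_mul ht0 hf0, x.ord_pow, ht]
  have := hf.resolve_left hf0
  omega

/-- prescribing the leading term of a pole at `x`, allowing poles at `x0` -/
theorem stepA (hRR : TaskRR) (x x0 : Place k K) (hx : x ≠ x0) (c : K) (j : ℕ)
    (hj : 1 ≤ j) (hc : x.ord c = -(j : ℤ)) :
    ∃ h : K, (∀ y : Place k K, y ≠ x → y ≠ x0 → y.Reg h) ∧
      (c - h = 0 ∨ -(j : ℤ) < x.ord (c - h)) := by
  classical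
  obtain ⟨-, hdeg, -, hFD, -, γ, N, hdim⟩ := hRR k K
  obtain ⟨t, ht0, ht⟩ := x.surj
  set M : ℤ := |N| with hM
  have hM0 : 0 ≤ M := abs_nonneg N
  set D : Place k K →₀ ℤ := Finsupp.single x (j : ℤ) + Finsupp.single x0 M with hD
  set E : Place k K →₀ ℤ := Finsupp.single x ((j : ℤ) - 1) + Finsupp.single x0 M with hE
  have hdd : ∀ a b : ℤ, ddp (Finsupp.single x a + Finsupp.single x0 b) =
      a * x.deg + b * x0.deg := by
    intro a b
    unfold ddp
    rw [Finsupp.sum_add_index' (fun _ => by simp) (fun _ _ _ => by ring),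
      Finsupp.sum_single_index (by simp), Finsupp.sum_single_index (by simp)]
  have hx0deg : (1 : ℤ) ≤ x0.deg := by exact_mod_cast hdeg x0
  have hxdeg : (1 : ℤ) ≤ x.deg := by exact_mod_cast hdeg x
  have hj' : (1 : ℤ) ≤ j := by exact_mod_cast hj
  have hNE : N ≤ ddp E := by
    rw [hE, hdd]
    have h1 : 0 ≤ ((j : ℤ) - 1) * x.deg := mul_nonneg (by omega) (by omega)
    have h2 : M * 1 ≤ M * x0.deg := mul_le_mul_of_nonneg_left hx0deg hM0
    have h3 : N ≤ M := le_abs_self N
    linarith
  have hED : ddp D = ddp E + x.deg := by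
    rw [hD, hE, hdd, hdd]; ring
  have hND : N ≤ ddp D := by omega
  have hdD := hdim D hND
  have hdE := hdim E hNE
  haveI := hFD D
  haveI := hFD E
  have hDx : D x = j := by
    rw [hD, Finsupp.add_apply, Finsupp.single_eq_same, Finsupp.single_apply, if_neg hx.symm,
      add_zero]
  have hreg : ∀ f : LLp D, x.Reg (t ^ j * (f : K)) := by
    intro f
    refine reg_tj ht ?_
    rcases f.2 with h | h
    · exact Or.inl h
    · right
      have := h x
      rwa [hDx] at this
  let φ : LLp D →ₗ[k] x.RF :=
    { toFun := fun f => x.red (t ^ j * (f : K))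
      map_add' := by
        intro f g
        rw [← x.red_add (hreg f) (hreg g), Submodule.coe_add, mul_add]
      map_smul' := by
        intro a f
        rw [RingHom.id_apply, Algebra.smul_def, Place.algebraMap_RF,
          ← x.red_mul (x.reg_const a) (hreg f), Submodule.coe_smul, Algebra.smul_def]
        congr 1
        ring }
  have hφ : ∀ f, φ f = x.red (t ^ j * (f : K)) := fun f => rfl
  have hker : Module.finrank k (LinearMap.ker φ) ≤ Module.finrank k (LLp E) := by
    have hmap : ∀ f : LinearMap.ker φ, ((f : LLp D) : K) ∈ LLp E := by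
      rintro ⟨f, hf⟩
      rw [LinearMap.mem_ker, hφ, x.red_eq_zero_iff (hreg f)] at hf
      rw [mem_LLp]
      by_cases hf0 : (f : K) = 0
      · exact Or.inl hf0
      right
      have hfx : 0 < x.ord (t ^ j * (f : K)) := by
        rcases hf with h | h
        · exact absurd h (mul_ne_zero (pow_ne_zero _ ht0) hf0)
        · exact h
      rw [x.ord_mul (pow_ne_zero _ ht0) hf0, x.ord_pow, ht, mul_one] at hfx
      intro P
      change - E P ≤ P.ord (f : K)
      by_cases hP : P = x
      · subst hP
        have : E P = (j : ℤ) - 1 := by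
          rw [hE, Finsupp.add_apply, Finsupp.single_eq_same, Finsupp.single_apply,
            if_neg hx.symm, add_zero]
        rw [this]
        omega
      · have h1 := (f.2.resolve_left hf0) P
        have : E P = D P := by
          rw [hE, hD, Finsupp.add_apply, Finsupp.add_apply, Finsupp.single_apply,
            Finsupp.single_apply, Finsupp.single_apply, if_neg (Ne.symm hP), if_neg (Ne.symm hP)]
        rw [this]
        exact h1
    let ψ : LinearMap.ker φ →ₗ[k] LLp E :=
      { toFun := fun f => ⟨((f : LLp D) : K), hmap f⟩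
        map_add' := fun f g => rfl
        map_smul' := fun a f => rfl }
    refine LinearMap.finrank_le_finrank_of_injective (f := ψ) ?_
    intro f g hfg
    have h1 : ((f : LLp D) : K) = ((g : LLp D) : K) :=
      congrArg (fun z : LLp E => (z : K)) hfg
    exact Subtype.ext (Subtype.ext h1)
  have hrn := φ.finrank_range_add_finrank_ker
  haveI : Module.Finite k x.RF := Module.finite_of_finrank_pos (hdeg x)
  have hrange : LinearMap.range φ = ⊤ := by
    apply Submodule.eq_top_of_finrank_eq
    have h1 : Module.finrank k (LinearMap.range φ) ≤ Module.finrank k x.RF :=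
      Submodule.finrank_le _
    have h2 : Module.finrank k x.RF = x.deg := rfl
    omega
  have hcreg : x.Reg (t ^ j * c) := reg_tj ht (Or.inr hc.ge)
  obtain ⟨f, hf⟩ : x.red (t ^ j * c) ∈ LinearMap.range φ := by rw [hrange]; trivial
  refine ⟨(f : K), ?_, ?_⟩
  · intro y hyx hyx0
    rcases f.2 with h | h
    · exact Or.inl h
    · right
      have h1 := h y
      have : D y = 0 := by
        rw [hD, Finsupp.add_apply, Finsupp.single_apply, Finsupp.single_apply,
          if_neg (Ne.symm hyx), if_neg (Ne.symm hyx0), add_zero]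
      rw [this] at h1
      simpa using h1
  · by_cases h0 : c - (f : K) = 0
    · exact Or.inl h0
    right
    have h1 : x.red (t ^ j * c - t ^ j * (f : K)) = 0 := by
      rw [x.red_sub hcreg (hreg f), ← hf, hφ, sub_self]
    have h2 : x.Reg (t ^ j * c - t ^ j * (f : K)) := by
      rw [sub_eq_add_neg]
      exact x.reg_add hcreg (x.reg_neg (hreg f))
    rw [x.red_eq_zero_iff h2, ← mul_sub] at h1
    rcases h1 with h1 | h1
    · exact absurd h1 (mul_ne_zero (pow_ne_zero _ ht0) h0)
    · rw [x.ord_mul (pow_ne_zero _ ht0) h0, x.ord_pow, ht, mul_one] at h1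
      omega

/-- killing the polar part at `x` -/
theorem stepB (hRR : TaskRR) (x x0 : Place k K) (hx : x ≠ x0) (j : ℕ) :
    ∀ c : K, (c = 0 ∨ -(j : ℤ) ≤ x.ord c) →
    ∃ h : K, (∀ y : Place k K, y ≠ x → y ≠ x0 → y.Reg h) ∧ x.Reg (c - h) := by
  induction j with
  | zero =>
    intro c hc
    refine ⟨0, fun y _ _ => y.reg_zero, ?_⟩
    rw [sub_zero]
    rcases hc with h | h
    · exact Or.inl h
    · right; simpa using h
  | succ j ih =>
    intro c hc
    by_cases hcj : c = 0 ∨ -(j : ℤ) ≤ x.ord c
    · exact ih c hcj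
    · push Not at hcj
      have hc1 : x.ord c = -((j + 1 : ℕ) : ℤ) := by
        have h1 := hc.resolve_left hcj.1
        have h2 := hcj.2
        push_cast at h1 ⊢
        omega
      obtain ⟨h, h1, h2⟩ := stepA hRR x x0 hx c (j + 1) (by omega) hc1
      obtain ⟨h', h3, h4⟩ := ih (c - h) (by
        rcases h2 with h2 | h2
        · exact Or.inl h2
        · right; push_cast at h2; omega)
      refine ⟨h + h', fun y hy hy0 => y.reg_add (h1 y hy hy0) (h3 y hy hy0), ?_⟩
      rwa [← sub_sub]

theorem sa1 (hRR : TaskRR) (S : Finset (Place k K)) (hS : S.Nonempty) (f : Place k K → K)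
    (hf : {x : Place k K | ¬ x.Reg (f x)}.Finite) :
    ∃ g : K, ∀ x, x ∉ S → x.Reg (f x - g) := by
  classical
  obtain ⟨x0, hx0⟩ := hS
  have h1 : ∀ x : Place k K, ∃ h : K, x ∉ S →
      (∀ y : Place k K, y ≠ x → y ∉ S → y.Reg h) ∧ x.Reg (f x - h) := by
    intro x
    by_cases hx : x ∈ S
    · exact ⟨0, fun h => absurd hx h⟩
    · have hxx : x ≠ x0 := fun h => hx (h ▸ hx0)
      obtain ⟨j, hj⟩ : ∃ j : ℕ, -(j : ℤ) ≤ x.ord (f x) := ⟨(x.ord (f x)).natAbs, by omega⟩
      obtain ⟨h, ha, hb⟩ := stepB hRR x x0 hxx j (f x) (Or.inr hj)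
      exact ⟨h, fun _ => ⟨fun y hy hyS => ha y hy fun e => hyS (e ▸ hx0), hb⟩⟩
  choose h hh using h1
  have hregsum : ∀ (y : Place k K) (T : Finset (Place k K)), (∀ x ∈ T, y.Reg (h x)) →
      y.Reg (∑ x ∈ T, h x) := by
    intro y T hT
    induction T using Finset.induction_on with
    | empty => rw [Finset.sum_empty]; exact y.reg_zero
    | insert a T ha ih =>
      rw [Finset.sum_insert ha]
      exact y.reg_add (hT a (Finset.mem_insert_self _ _))
        (ih fun x hx => hT x (Finset.mem_insert_of_mem hx))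
  set B : Finset (Place k K) := hf.toFinset \ S with hB
  refine ⟨∑ x ∈ B, h x, fun y hy => ?_⟩
  by_cases hyB : y ∈ B
  · rw [← Finset.add_sum_erase B h hyB, ← sub_sub, sub_eq_add_neg]
    refine y.reg_add (hh y hy).2 (y.reg_neg (hregsum y _ fun x hx => ?_))
    have hxB : x ∈ B := Finset.mem_of_mem_erase hx
    have hxS : x ∉ S := (Finset.mem_sdiff.1 hxB).2
    exact (hh x hxS).1 y (Finset.ne_of_mem_erase hx).symm hy
  · have hyr : y.Reg (f y) := by
      by_contra hcon
      exact hyB (Finset.mem_sdiff.2 ⟨hf.mem_toFinset.2 hcon, hy⟩)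
    rw [sub_eq_add_neg]
    refine y.reg_add hyr (y.reg_neg (hregsum y _ fun x hx => ?_))
    have hxS : x ∉ S := (Finset.mem_sdiff.1 hx).2
    exact (hh x hxS).1 y (fun e => hyB (e ▸ hx)) hy

end fields

section witt

variable {p : ℕ} [Fact p.Prime] {K : Type} [Field K]

theorem init_coeff_lt (w : WittVector p K) (n i : ℕ) (h : i < n) :
    (WittVector.init n w).coeff i = w.coeff i := by
  simp [WittVector.init, WittVector.select, h]

theorem init_coeff_ge (w : WittVector p K) (n i : ℕ) (h : ¬ i < n) :
    (WittVector.init n w).coeff i = 0 := by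
  simp [WittVector.init, WittVector.select, h]

theorem init_lift (O : Subring K) (n : ℕ) (w : WittVector p K) (hw : ∀ j, j < n → w.coeff j ∈ O) :
    ∃ W : WittVector p O, WittVector.map O.subtype W = WittVector.init n w := by
  classical
  refine ⟨WittVector.mk p fun i => if h : i < n then ⟨w.coeff i, hw i h⟩ else 0, ?_⟩
  ext i
  rw [WittVector.map_coeff, WittVector.coeff_mk]
  by_cases h : i < n
  · rw [dif_pos h, init_coeff_lt w n i h]; rfl
  · rw [dif_neg h, init_coeff_ge w n i h]; rfl

theorem sub_mem (O : Subring K) (n : ℕ) (a b : WittVector p K)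
    (ha : ∀ j, j < n → a.coeff j ∈ O) (hb : ∀ j, j < n → b.coeff j ∈ O) :
    ∀ j, j < n → (a - b).coeff j ∈ O := by
  intro j hj
  obtain ⟨A, hA⟩ := init_lift O n a ha
  obtain ⟨B, hB⟩ := init_lift O n b hb
  rw [← init_coeff_lt (a - b) n j hj, WittVector.init_sub, init_coeff_lt _ n j hj, ← hA, ← hB,
    ← map_sub, WittVector.map_coeff]
  exact ((A - B).coeff j).2

theorem tm_mem (O : Subring K) (c : K) (hc : c ∈ O) (j : ℕ) :
    (WittVector.teichmuller p c).coeff j ∈ O := by
  rcases Nat.eq_zero_or_pos j with rfl | hj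
  · rw [WittVector.teichmuller_coeff_zero]; exact hc
  · rw [WittVector.teichmuller_coeff_pos p c j hj]; exact O.zero_mem

/-- `V⁻¹ (w - [w₀])` -/
noncomputable def dn (w : WittVector p K) : WittVector p K :=
  WittVector.mk p fun i => (w - WittVector.teichmuller p (w.coeff 0)).coeff (i + 1)

theorem dn_coeff (w : WittVector p K) (i : ℕ) :
    (dn w).coeff i = (w - WittVector.teichmuller p (w.coeff 0)).coeff (i + 1) := by
  rw [dn, WittVector.coeff_mk]

theorem V_dn (w : WittVector p K) :
    w = WittVector.teichmuller p (w.coeff 0) + WittVector.verschiebung (dn w) := by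
  have h0 : (w - WittVector.teichmuller p (w.coeff 0)).coeff 0 = 0 := by
    have h1 := map_sub (WittVector.constantCoeff (p := p) (R := K)) w
      (WittVector.teichmuller p (w.coeff 0))
    simp only [WittVector.constantCoeff_apply] at h1
    rw [h1, WittVector.teichmuller_coeff_zero, sub_self]
  have h2 : WittVector.verschiebung (dn w) = w - WittVector.teichmuller p (w.coeff 0) := by
    ext i
    cases i with
    | zero => rw [WittVector.verschiebung_coeff_zero, h0]
    | succ i => rw [WittVector.verschiebung_coeff_succ, dn_coeff]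
  rw [h2]
  ring

end witt

theorem taskSAAsm : TaskSAAsm := by
  intro hRR p _ k K _ _ _ _ _ _ S hS n
  obtain ⟨hfin, -⟩ := hRR k K
  induction n with
  | zero => intro gx _; exact ⟨0, fun x _ j hj => absurd hj (Nat.not_lt_zero _)⟩
  | succ n ih =>
    intro gx hgx
    obtain ⟨c, hc⟩ := sa1 hRR S hS (fun x => (gx x).coeff 0)
      (hgx.subset fun x hx => ⟨0, Nat.succ_pos n, hx⟩)
    set tc : WittVector p K := WittVector.teichmuller p c with htc
    have hu0 : ∀ x, (gx x - tc).coeff 0 = (gx x).coeff 0 - c := by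
      intro x
      have h1 := map_sub (WittVector.constantCoeff (p := p) (R := K)) (gx x) tc
      simp only [WittVector.constantCoeff_apply] at h1
      rw [h1, htc, WittVector.teichmuller_coeff_zero]
    set hx : Place k K → WittVector p K := fun x => dn (gx x - tc) with hhx
    have hfin2 : {x : Place k K | ∃ j, j < n ∧ ¬ x.Reg ((hx x).coeff j)}.Finite := by
      refine (hgx.union (hfin c)).subset ?_
      rintro x ⟨j, hj, hjr⟩
      by_contra hcon
      simp only [Set.mem_union, Set.mem_ofPred_eq, not_or, not_exists, not_and, not_not] at hcon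
      obtain ⟨h1, h2⟩ := hcon
      apply hjr
      have hcO : c ∈ x.O.toSubring := Or.inr h2.ge
      have h3 : ∀ i, i < n + 1 → (gx x - tc).coeff i ∈ x.O.toSubring :=
        sub_mem _ (n + 1) _ _ h1 fun i _ => tm_mem _ c hcO i
      have h4 := sub_mem x.O.toSubring (n + 1) (gx x - tc)
        (WittVector.teichmuller p ((gx x - tc).coeff 0)) h3
        (fun i _ => tm_mem _ _ (h3 0 (Nat.succ_pos n)) i) (j + 1) (Nat.succ_lt_succ hj)
      rw [hhx]
      simp only [dn_coeff]
      exact h4
    obtain ⟨g', hg'⟩ := ih hx hfin2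
    refine ⟨tc + WittVector.verschiebung g', fun x hxS j hj => ?_⟩
    have e1 : tc + WittVector.verschiebung g' - gx x =
        WittVector.verschiebung (g' - hx x) -
          WittVector.teichmuller p ((gx x - tc).coeff 0) := by
      have h1 := V_dn (gx x - tc)
      have h2 : WittVector.verschiebung (hx x) =
          gx x - tc - WittVector.teichmuller p ((gx x - tc).coeff 0) := by
        rw [hhx]
        simp only
        rw [eq_sub_iff_add_eq, add_comm]
        exact h1.symm
      rw [map_sub, h2]
      ring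
    rw [e1]
    refine sub_mem x.O.toSubring (n + 1) _ _ (fun i hi => ?_) (fun i _ => tm_mem _ _ ?_ i) j hj
    · cases i with
      | zero => rw [WittVector.verschiebung_coeff_zero]; exact Subring.zero_mem _
      | succ i =>
        rw [WittVector.verschiebung_coeff_succ]
        exact hg' x hxS i (Nat.lt_of_succ_lt_succ hi)
    · rw [hu0]
      exact hc x hxS

end Pool.Agent.H825R3.ZP
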